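import Pool.Agent.TH304.KF.Final

set_option autoImplicit false

/-!
# MP_850839: the tube inequality in the full range, without loss, for families with bounded flag
multiplicities, for instance triangular families

The last coordinate of `ℝ^n`, `n = m + 2 ≥ 3`, is the height. A line that is not horizontal has `m + 1`
slopes and `m + 1` feet (the coordinates of its point of height `0`). All families of `δ`-tubes with
`δ`-separated orientations in a cone around the vertical axis and centres of bounded height are
allowed; the positions are arbitrary. The number `M k` bounds how many different values (up to `δ`) the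
foot number `k` takes among the tubes whose first `k + 1` slopes and first `k` feet agree, up to `δ`,
with those of a given tube. In other words: project the tubes along the flag of the coordinate
subspaces; `M k` bounds the number of the different parallel tubes of the projection to the
coordinates `0, …, k` and the height that lie over one tube of the projection to the coordinates
`0, …, k - 1` and the height.

The inequality of the problem is proved for every `q > n / (n - 1)`, without loss in `δ` and with the
conjectured dependence on the number of tubes, with the additional factor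
`(∏ M k) ^ (1 / (q (n - 1)))`.

For triangular families (`foot k` is an arbitrary function of the first `k + 1` slopes, up to `K δ`)
one can take `M k = 2 K + 1` (see `flagMult_of_triangular`). For `n = 3` this means: all the tubes
whose directions are in a plane through a fixed horizontal axis are in one plane. Nothing is assumed
about the dependence of the position on the direction at scales larger than `δ`.

The proof is a recursion over the flag: a weighted Hölder inequality in every coordinate, where the
weight of a vertex of the tree is a power of the number of tubes below it, Hölder's inequality in the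
height variable, and a Hardy-Littlewood-Sobolev type inequality at every vertex of the tree, which
avoids the logarithmic losses.
-/

open MeasureTheory

namespace Pool.Agent.Results.MP_850839_an.FlagFamilies

/-- The `δ`-tube of length `1` and radius `δ` with centre `a` and direction `e` (a unit vector). -/
def tube {n : ℕ} (δ : ℝ) (a e : EuclideanSpace ℝ (Fin n)) : Set (EuclideanSpace ℝ (Fin n)) :=
  {y | |inner ℝ (y - a) e| ≤ 1 / 2 ∧ ‖(y - a) - (inner ℝ (y - a) e) • e‖ ≤ δ}

/-- The `j`-th slope of a line with direction `e`: the line is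
`{(foot + t slope, t) : t ∈ ℝ}`. -/
noncomputable def slope {m : ℕ} (e : EuclideanSpace ℝ (Fin (m + 2))) (j : Fin (m + 1)) : ℝ :=
  e j.castSucc / e (Fin.last (m + 1))

/-- The `j`-th coordinate of the point of height `0` of the line through `a` with direction `e`. -/
noncomputable def foot {m : ℕ} (a e : EuclideanSpace ℝ (Fin (m + 2))) (j : Fin (m + 1)) : ℝ :=
  a j.castSucc - a (Fin.last (m + 1)) * slope e j

/-- The family has flag multiplicities at most `M 0, …, M (m - 1)`: for every tube `i` and every
`k < m`, among the tubes `i'` whose slopes `0, …, k` and feet `0, …, k - 1` agree up to `δ` with those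
of `i`, the values of the foot `k` are contained in `M k` intervals of length `2 δ`. -/
def FlagMult {m : ℕ} {ι : Type} (δ : ℝ) (a e : ι → EuclideanSpace ℝ (Fin (m + 2)))
    (M : Fin m → ℕ) : Prop :=
  ∀ (k : Fin m) (i : ι), ∃ F : Finset ℝ, F.card ≤ M k ∧
    ∀ i' : ι, (∀ l, l ≤ k.castSucc → |slope (e i') l - slope (e i) l| ≤ δ) →
      (∀ l, l < k.castSucc → |foot (a i') (e i') l - foot (a i) (e i) l| ≤ δ) →
      ∃ x ∈ F, |foot (a i') (e i') k.castSucc - x| ≤ δ

/-- Triangular families have flag multiplicities at most `2 K + 1`. -/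
theorem flagMult_of_triangular {m : ℕ} {ι : Type} {δ : ℝ} (hδ : 0 < δ) (K : ℕ)
    (a e : ι → EuclideanSpace ℝ (Fin (m + 2)))
    (h : ∀ (k : Fin m) (i i' : ι), (∀ l, l ≤ k.castSucc → |slope (e i') l - slope (e i) l| ≤ δ) →
      |foot (a i') (e i') k.castSucc - foot (a i) (e i) k.castSucc| ≤ K * δ) :
    FlagMult δ a e (fun _ => 2 * K + 1) := by
  classical
  intro k i
  refine ⟨(Finset.Icc (-(K : ℤ)) K).image fun z : ℤ => foot (a i) (e i) k.castSucc + z * δ, ?_, ?_⟩
  · refine Finset.card_image_le.trans (le_of_eq ?_)
    rw [Int.card_Icc]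
    show ((K : ℤ) + 1 - -(K : ℤ)).toNat = 2 * K + 1
    omega
  · intro i' h1 _
    have h2 := h k i i' h1
    set d : ℝ := foot (a i') (e i') k.castSucc - foot (a i) (e i) k.castSucc with hd
    have h3 : |d / δ| ≤ K := by
      rw [abs_div, abs_of_pos hδ, div_le_iff₀ hδ]; exact h2
    have h4 := abs_le.1 h3
    refine ⟨foot (a i) (e i) k.castSucc + (round (d / δ) : ℤ) * δ, ?_, ?_⟩
    · refine Finset.mem_image.2 ⟨round (d / δ), ?_, rfl⟩
      rw [Finset.mem_Icc, round_eq]
      constructor
      · rw [Int.le_floor]; push_cast; linarith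
      · have h5 : ⌊d / δ + 1 / 2⌋ < (K : ℤ) + 1 := by
          rw [Int.floor_lt]; push_cast; linarith
        omega
    · have h5 : foot (a i') (e i') k.castSucc - (foot (a i) (e i) k.castSucc +
          (round (d / δ) : ℤ) * δ) = (d / δ - (round (d / δ) : ℤ)) * δ := by
        rw [sub_mul, div_mul_cancel₀ _ hδ.ne', hd]; ring
      rw [h5, abs_mul, abs_of_pos hδ]
      have h6 := abs_sub_round (d / δ)
      nlinarith

/-- **The conjectured inequality in the full range `q > n / (n - 1)`, `n = m + 2`, without loss in `δ`
and with the conjectured dependence on the number of tubes, for all families of tubes with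
`δ`-separated orientations, with the factor `(∏ M k) ^ (1 / (q (n - 1)))`.** -/
theorem result (m : ℕ) (hm : 1 ≤ m) (c S : ℝ) (hc : 0 < c) (hS : 0 ≤ S) (q : ℝ)
    (hq : ((m : ℝ) + 2) / ((m : ℝ) + 1) < q) :
    ∃ C : ℝ, 0 < C ∧ ∀ δ : ℝ, 0 < δ → δ < 1 → ∀ (ι : Type) [Fintype ι]
      (a e : ι → EuclideanSpace ℝ (Fin (m + 2))) (M : Fin m → ℕ),
      (∀ i, ‖e i‖ = 1) → (∀ i j, i ≠ j → δ ≤ ‖e i - e j‖) →
      (∀ i, c ≤ e i (Fin.last (m + 1)) ∧ |a i (Fin.last (m + 1))| ≤ S) →
      FlagMult δ a e M →
      eLpNorm (fun x => ∑ i, (tube δ (a i) (e i)).indicator (fun _ => (1 : ℝ)) x)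
          (ENNReal.ofReal q) volume ≤
        ENNReal.ofReal (C * (∏ k, (M k : ℝ)) ^ (1 / (q * ((m : ℝ) + 1))) *
          δ ^ (((m : ℝ) + 1) / q) *
          (Fintype.card ι : ℝ) ^ (1 - 1 / (q * ((m : ℝ) + 1)))) := by
  have hm1 : (0 : ℝ) < (m : ℝ) + 1 := by positivity
  have hq' : 1 + 1 / ((m : ℝ) + 1) < q := by
    have : 1 + 1 / ((m : ℝ) + 1) = ((m : ℝ) + 2) / ((m : ℝ) + 1) := by field_simp; ring
    rw [this]; exact hq
  have hq0 : 0 < q := by
    have : 0 < 1 / ((m : ℝ) + 1) := by positivity
    linarith
  obtain ⟨C, hC, h⟩ := Pool.Agent.TH304.KF.main m hm c S hc hS q hq'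
  refine ⟨C ^ (1 / q), by positivity, ?_⟩
  intro δ hδ hδ1 ι _ a e M he hsep hce hF
  have key := h δ hδ hδ1 ι a e M he hsep hce hF
  have hM0 : 0 ≤ ∏ k, (M k : ℝ) := Finset.prod_nonneg fun k _ => by positivity
  rw [eLpNorm_eq_lintegral_rpow_enorm_toReal (by
    rw [ne_eq, ENNReal.ofReal_eq_zero, not_le]; exact hq0) ENNReal.ofReal_ne_top,
    ENNReal.toReal_ofReal hq0.le]
  have e3 : ∀ x, ‖∑ i, (tube δ (a i) (e i)).indicator (fun _ => (1 : ℝ)) x‖ₑ =
      Pool.Agent.TH304.KF.mlt δ a e x := by
    intro x
    unfold Pool.Agent.TH304.KF.mlt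
    rw [Real.enorm_of_nonneg (Finset.sum_nonneg fun i _ =>
      Set.indicator_nonneg (fun _ _ => zero_le_one) _),
      ENNReal.ofReal_sum_of_nonneg fun i _ => Set.indicator_nonneg (fun _ _ => zero_le_one) _]
    refine Finset.sum_congr rfl fun i _ => ?_
    by_cases hx : x ∈ tube δ (a i) (e i)
    · have hx' : x ∈ Pool.Agent.TH304.KF.tube δ (a i) (e i) := hx
      rw [Set.indicator_of_mem hx, Set.indicator_of_mem hx', ENNReal.ofReal_one]
    · have hx' : x ∉ Pool.Agent.TH304.KF.tube δ (a i) (e i) := hx
      rw [Set.indicator_of_notMem hx, Set.indicator_of_notMem hx', ENNReal.ofReal_zero]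
  simp only [e3]
  refine (ENNReal.rpow_le_rpow key (by positivity)).trans (le_of_eq ?_)
  rw [ENNReal.ofReal_rpow_of_nonneg (mul_nonneg hC.le (mul_nonneg (mul_nonneg
    (Real.rpow_nonneg hM0 _) (by positivity)) (by positivity))) (by positivity)]
  congr 1
  rw [Real.mul_rpow hC.le (mul_nonneg (mul_nonneg (Real.rpow_nonneg hM0 _) (by positivity))
      (by positivity)),
    Real.mul_rpow (mul_nonneg (Real.rpow_nonneg hM0 _) (by positivity)) (by positivity),
    Real.mul_rpow (Real.rpow_nonneg hM0 _) (by positivity), ← Real.rpow_mul hM0,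
    ← Real.rpow_mul (by positivity)]
  have e4 : (δ ^ (m + 1)) ^ (1 / q) = δ ^ (((m : ℝ) + 1) / q) := by
    rw [← Real.rpow_natCast, ← Real.rpow_mul hδ.le]
    congr 1
    push_cast
    ring
  rw [e4]
  have e5 : 1 / ((m : ℝ) + 1) * (1 / q) = 1 / (q * ((m : ℝ) + 1)) := by field_simp
  have e6 : (q - 1 / ((m : ℝ) + 1)) * (1 / q) = 1 - 1 / (q * ((m : ℝ) + 1)) := by field_simp
  rw [e5, e6]
  ring

end Pool.Agent.Results.MP_850839_an.FlagFamilies
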