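import Pool.Agent.TH705.RR.Fin
set_option autoImplicit false

/-!
# The Kakeya inequality for tubes after a random rotation of the positions

`n ≥ 3`.  Take any finite family of `δ`-tubes with `δ`-separated orientations and arbitrary
positions, and decouple positions and orientations by ONE random rotation `g` (all centres are moved
by `g`, the orientations are kept; or the orientations are moved by `g` and the centres are kept).
Then the conjectured inequality holds on average, without any loss in `δ`, with the conjectured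
dependence on the number of tubes, in the full range `q > n/(n-1)` when `g` is Haar distributed in
`O(n)` or in any compact group acting transitively on the unit sphere; for a law of `g` of dimension
`α`, for `q > 1 + 1/α`.
-/

open MeasureTheory
open scoped ENNReal

namespace Pool.Agent.Results.MP_850839_an.RandomRotations

/-- The space `ℝ^n`. -/
abbrev Rn (n : ℕ) : Type := EuclideanSpace ℝ (Fin n)

/-- The linear isometries of `ℝ^n` (as a group: the orthogonal group). -/
abbrev Iso (n : ℕ) : Type := Rn n ≃ₗᵢ[ℝ] Rn n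

/-- The `δ`-tube with centre `a` and direction `e` (a unit vector): the closed cylinder of length
`1` and radius `δ` around the segment with centre `a` and direction `e`. -/
def tube {n : ℕ} (δ : ℝ) (a e : Rn n) : Set (Rn n) :=
  {y | |inner ℝ (y - a) e| ≤ 1 / 2 ∧ ‖(y - a) - (inner ℝ (y - a) e) • e‖ ≤ δ}

/-- The number of the `δ`-tubes with centres `b i` and directions `e i` that contain `x`. -/
noncomputable def mult {n : ℕ} {ι : Type} [Fintype ι] (δ : ℝ) (b e : ι → Rn n) (x : Rn n) : ℝ :=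
  ∑ i, (tube δ (b i) (e i)).indicator (fun _ => (1 : ℝ)) x

/-- The `L^q` norm of the sum of the indicator functions of the tubes. -/
noncomputable def size {n : ℕ} {ι : Type} [Fintype ι] (q δ : ℝ) (b e : ι → Rn n) : ℝ≥0∞ :=
  eLpNorm (mult δ b e) (ENNReal.ofReal q) volume

/-- The right-hand side `δ^((n-1)/q) N^(1-1/(q(n-1)))` of the conjectured inequality for `N` tubes,
without the constant. -/
noncomputable def rhs (n : ℕ) (q δ : ℝ) (N : ℕ) : ℝ :=
  δ ^ (((n : ℝ) - 1) / q) * (N : ℝ) ^ (1 - 1 / (q * ((n : ℝ) - 1)))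

/-- **The conjectured inequality, with the constant `C`**, for the `δ`-tubes with centres `b i` and
directions `e i`. -/
def KakeyaBound {n : ℕ} {ι : Type} [Fintype ι] (q C δ : ℝ) (b e : ι → Rn n) : Prop :=
  size q δ b e ≤ ENNReal.ofReal (C * rhs n q δ (Fintype.card ι))

/-- `0 < δ < 1` and `e` is a `δ`-separated family of unit vectors. -/
def Separated {n : ℕ} {ι : Type} (δ : ℝ) (e : ι → Rn n) : Prop :=
  0 < δ ∧ δ < 1 ∧ (∀ i, ‖e i‖ = 1) ∧ ∀ i j, i ≠ j → δ ≤ ‖e i - e j‖

/-- The image `g v` of the vector `v` under the isometry `g`. -/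
noncomputable def ap {n : ℕ} (g : Iso n) (v : Rn n) : Rn n := g v

/-- The family `b` moved by `g`. -/
noncomputable def move {n : ℕ} {ι : Type} (g : Iso n) (b : ι → Rn n) : ι → Rn n :=
  fun i => ap g (b i)

/-- `g` is a measurable family of isometries (a random isometry). -/
def Random {n : ℕ} {Ω : Type} [MeasurableSpace Ω] (g : Ω → Iso n) : Prop :=
  ∀ v : Rn n, Measurable (fun ω => ap (g ω) v)

/-- The law of the image `g v` of every unit vector `v` under the random isometry `g` has dimension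
at least `α`, uniformly, with constant `A`. -/
def Spread {n : ℕ} {Ω : Type} [MeasurableSpace Ω] (P : Measure Ω) (g : Ω → Iso n) (A α : ℝ) : Prop :=
  ∀ v w : Rn n, ‖v‖ = 1 → ‖w‖ = 1 → ∀ s : ℝ, 0 < s →
    P {ω | ‖ap (g ω) v - w‖ ≤ s} ≤ ENNReal.ofReal (A * s ^ α)

/-- **The conjectured inequality on average over `g`**, with the constant `C` for the `q`-th powers,
for ALL families of tubes, all centres being moved by `g`, and also with all directions moved by
`g`. -/
def OnAverage {n : ℕ} {Ω : Type} [MeasurableSpace Ω] (P : Measure Ω) (g : Ω → Iso n) (q C : ℝ) :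
    Prop :=
  ∀ (ι : Type) [Fintype ι] (a e : ι → Rn n) (δ : ℝ), Separated δ e →
    ∫⁻ ω, size q δ (move (g ω) a) e ^ q ∂P ≤ ENNReal.ofReal (C * rhs n q δ (Fintype.card ι) ^ q) ∧
    ∫⁻ ω, size q δ a (move (g ω) e) ^ q ∂P ≤ ENNReal.ofReal (C * rhs n q δ (Fintype.card ι) ^ q)

/-- **The conjectured inequality with large probability**: for ALL families of tubes and all
`η > 0`, with the constant `(C/η)^(1/q)` outside a set of `g` of probability `η`. -/
def ForMost {n : ℕ} {Ω : Type} [MeasurableSpace Ω] (P : Measure Ω) (g : Ω → Iso n) (q C : ℝ) :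
    Prop :=
  ∀ (ι : Type) [Fintype ι] (a e : ι → Rn n) (δ η : ℝ), Separated δ e → 0 < η →
    P {ω | ¬ KakeyaBound q ((C / η) ^ (1 / q)) δ (move (g ω) a) e} ≤ ENNReal.ofReal η ∧
    P {ω | ¬ KakeyaBound q ((C / η) ^ (1 / q)) δ a (move (g ω) e)} ≤ ENNReal.ofReal η

/-- **The conjectured inequality for almost every `g`, for a whole sequence of families** (for
instance at all scales `δ = 2^(-k)`) at the same time, with the loss `(k+1)^(2/q)`. -/
def AlmostSurely {n : ℕ} {Ω : Type} [MeasurableSpace Ω] (P : Measure Ω) (g : Ω → Iso n) (q : ℝ) :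
    Prop :=
  ∀ (N : ℕ → ℕ) (a e : (k : ℕ) → Fin (N k) → Rn n) (δ : ℕ → ℝ), (∀ k, Separated (δ k) (e k)) →
    ∀ᵐ ω ∂P, ∃ B : ℝ, ∀ k : ℕ,
      KakeyaBound q (B * ((k : ℝ) + 1) ^ (2 / q)) (δ k) (move (g ω) (a k)) (e k) ∧
      KakeyaBound q (B * ((k : ℝ) + 1) ^ (2 / q)) (δ k) (a k) (move (g ω) (e k))

/-- All three forms. -/
def KakeyaOnAverage {n : ℕ} {Ω : Type} [MeasurableSpace Ω] (P : Measure Ω) (g : Ω → Iso n)
    (q C : ℝ) : Prop := OnAverage P g q C ∧ ForMost P g q C ∧ AlmostSurely P g q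

/-- `ρ` is an action of the group `G` by linear isometries of `ℝ^n`. -/
def Action {n : ℕ} {G : Type} [Group G] (ρ : G → Iso n) : Prop :=
  ∀ (k l : G) (v : Rn n), ap (ρ (k * l)) v = ap (ρ k) (ap (ρ l) v)

/-- `ρ` is continuous in `k` and transitive on the unit sphere. -/
def Transitive {n : ℕ} {G : Type} [TopologicalSpace G] (ρ : G → Iso n) : Prop :=
  (∀ v : Rn n, Continuous (fun k => ap (ρ k) v)) ∧
    ∀ v w : Rn n, ‖v‖ = 1 → ‖w‖ = 1 → ∃ k, ap (ρ k) v = w

/-- **The Kakeya tube inequality for positions and orientations decoupled by one random rotation.** -/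
theorem result (n : ℕ) (hn : 3 ≤ n) :
    -- (1) random isometries whose law has dimension `α > 1`: exponents `q > 1 + 1/α`
    (∀ α q : ℝ, 1 < α → α ≤ (n : ℝ) - 1 → 1 + 1 / α < q → ∃ C : ℝ, 0 < C ∧ ∀ A : ℝ, 0 ≤ A →
      ∀ (Ω : Type) [MeasurableSpace Ω] (P : Measure Ω) [IsProbabilityMeasure P] (g : Ω → Iso n),
      Random g → Spread P g A α → KakeyaOnAverage P g q (C * (1 + A))) ∧
    -- (2) compact groups acting transitively on the unit sphere, for instance `O(n)` or `SO(n)`,
    -- with the normalised Haar measure: the full range `q > n/(n-1)`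
    (∀ q : ℝ, (n : ℝ) / ((n : ℝ) - 1) < q → ∃ C : ℝ, 0 < C ∧
      ∀ (G : Type) [Group G] [TopologicalSpace G] [IsTopologicalGroup G] [CompactSpace G]
      [MeasurableSpace G] [BorelSpace G] (μ : Measure G) [μ.IsHaarMeasure] [IsProbabilityMeasure μ]
      (ρ : G → Iso n), Action ρ → Transitive ρ → KakeyaOnAverage μ ρ q C) ∧
    -- (3) in particular (from `O(n)`): for every family there is a rotation of the positions for
    -- which the conjectured inequality holds with a fixed constant
    (∀ q : ℝ, (n : ℝ) / ((n : ℝ) - 1) < q → ∃ C : ℝ, 0 < C ∧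
      ∀ (ι : Type) [Fintype ι] (a e : ι → Rn n) (δ : ℝ), Separated δ e →
      ∃ g : Iso n, KakeyaBound q C δ (move g a) e) := by
  have hn1 : (2 : ℝ) ≤ (n : ℝ) - 1 := by
    have : (3 : ℝ) ≤ n := by exact_mod_cast hn
    linarith
  have h1 : ∀ α q : ℝ, 1 < α → α ≤ (n : ℝ) - 1 → 1 + 1 / α < q → ∃ C : ℝ, 0 < C ∧ ∀ A : ℝ, 0 ≤ A →
      ∀ (Ω : Type) [MeasurableSpace Ω] (P : Measure Ω) [IsProbabilityMeasure P] (g : Ω → Iso n),
      Random g → Spread P g A α → KakeyaOnAverage P g q (C * (1 + A)) := by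
    intro α q hα hαn hq
    have hα0 : 0 < 1 / α := by positivity
    have hq1 : 1 < q := by linarith
    have hq0 : 0 < q := by linarith
    obtain ⟨C, hC, H⟩ := TH705.RR.general2 hn hα hαn hq
    refine ⟨C, hC, ?_⟩
    intro A hA Ω _ P _ g hg hsp
    have hC' : 0 < C * (1 + A) := by positivity
    have H' : ∀ (h : Ω → Iso n), (∀ v, Measurable (fun ω => h ω v)) → Spread P h A α →
        ∀ (ι : Type) [Fintype ι] (a e : ι → Rn n) (δ : ℝ), Separated δ e →
        ∫⁻ ω, size q δ (move (h ω) a) e ^ q ∂P ≤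
          ENNReal.ofReal (C * (1 + A) * δ ^ (n - 1) *
            (Fintype.card ι : ℝ) ^ (q - 1 / ((n : ℝ) - 1))) := by
      intro h hh hs ι _ a e δ hsep
      obtain ⟨hδ, hδ1, he, hsep⟩ := hsep
      exact (H A hA Ω P h hh hs δ hδ hδ1 ι a e he hsep).1
    have hdir : ∀ (ι : Type) [Fintype ι] (a e : ι → Rn n) (δ : ℝ) (ω : Ω),
        size q δ a (move (g ω) e) = size q δ (move (g ω).symm a) e := by
      intro ι _ a e δ ω
      exact TH705.RR.eLp_dir δ (g ω) a e (ENNReal.ofReal q)
    have hsm := TH705.RR.symm_meas hg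
    have hsp' : Spread P (fun ω => (g ω).symm) A α := TH705.RR.spread_symm hsp
    have hrhs : ∀ (N : ℕ) (δ : ℝ), 0 < δ → rhs n q δ N ^ q = δ ^ (n - 1) *
        (N : ℝ) ^ (q - 1 / ((n : ℝ) - 1)) := fun N δ hδ => TH705.RR.rhs_pow hn hq0 hδ N
    have hrhs0 : ∀ (N : ℕ) (δ : ℝ), 0 < δ → 0 ≤ rhs n q δ N := by
      intro N δ hδ
      unfold rhs
      positivity
    have hav : OnAverage P g q (C * (1 + A)) := by
      intro ι _ a e δ hsep
      rw [hrhs _ _ hsep.1, ← mul_assoc]
      refine ⟨H' g hg hsp ι a e δ hsep, ?_⟩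
      simp_rw [hdir]
      exact H' (fun ω => (g ω).symm) hsm hsp' ι a e δ hsep
    refine ⟨hav, ?_, ?_⟩
    · intro ι _ a e δ η hsep hη
      have e1 : (C * (1 + A) / η) ^ (1 / q) * rhs n q δ (Fintype.card ι) =
          (C * (1 + A) / η) ^ (1 / q) * δ ^ (((n : ℝ) - 1) / q) *
            (Fintype.card ι : ℝ) ^ (1 - 1 / (q * ((n : ℝ) - 1))) := by
        unfold rhs
        ring
      unfold KakeyaBound
      rw [e1]
      refine ⟨TH705.RR.prob_bad hn hq1 hC' hg hsep.1 a e (H' g hg hsp ι a e δ hsep) hη, ?_⟩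
      simp_rw [hdir]
      exact TH705.RR.prob_bad hn hq1 hC' hsm hsep.1 a e
        (H' (fun ω => (g ω).symm) hsm hsp' ι a e δ hsep) hη
    · intro N a e δ hsep
      have hmeas : ∀ (h : Ω → Iso n), (∀ v, Measurable (fun ω => h ω v)) → ∀ k,
          Measurable (fun ω => size q (δ k) (move (h ω) (a k)) (e k) ^ q) := by
        intro h hh k
        have e2 : (fun ω => size q (δ k) (move (h ω) (a k)) (e k) ^ q) =
            fun ω => ∫⁻ x, TH705.RR.mult (δ k) (h ω) (a k) (e k) x ^ q := by
          funext ω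
          exact TH705.RR.eLp_mu_pow (δ k) (h ω) (a k) (e k) hq0
        rw [e2]
        exact ((TH705.RR.mult_meas hh (δ k) (a k) (e k)).pow_const q).lintegral_prod_right'
      have hR0 : ∀ k, 0 ≤ rhs n q (δ k) (N k) ^ q := fun k =>
        Real.rpow_nonneg (hrhs0 _ _ (hsep k).1) _
      have hm1 := hmeas g hg
      have hm2 : ∀ k, Measurable (fun ω => size q (δ k) (a k) (move (g ω) (e k)) ^ q) := by
        intro k
        have e4 : (fun ω => size q (δ k) (a k) (move (g ω) (e k)) ^ q) =
            fun ω => size q (δ k) (move (g ω).symm (a k)) (e k) ^ q := by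
          funext ω
          rw [hdir]
        rw [e4]
        exact hmeas (fun ω => (g ω).symm) hsm k
      have hb := TH705.RR.all_scales_two (P := P)
        (fun k ω => size q (δ k) (move (g ω) (a k)) (e k) ^ q)
        (fun k ω => size q (δ k) (a k) (move (g ω) (e k)) ^ q) hm1 hm2
        (fun k => rhs n q (δ k) (N k) ^ q) hR0 hC'.le
        (fun k => by
          have := (hav (Fin (N k)) (a k) (e k) (δ k) (hsep k)).1
          rwa [Fintype.card_fin] at this)
        (fun k => by
          have := (hav (Fin (N k)) (a k) (e k) (δ k) (hsep k)).2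
          rwa [Fintype.card_fin] at this)
      filter_upwards [hb] with ω hω
      obtain ⟨B, hB, hω⟩ := hω
      refine ⟨B ^ (1 / q), ?_⟩
      have hroot : ∀ (k : ℕ) (x : ℝ≥0∞), x ^ q ≤ ENNReal.ofReal (B * (((k : ℝ) + 1) ^ 2 *
          rhs n q (δ k) (N k) ^ q)) →
          x ≤ ENNReal.ofReal (B ^ (1 / q) * ((k : ℝ) + 1) ^ (2 / q) *
            rhs n q (δ k) (Fintype.card (Fin (N k)))) := by
        intro k x hx
        have hk : (0 : ℝ) ≤ (k : ℝ) + 1 := by positivity
        have hr := hrhs0 (N k) (δ k) (hsep k).1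
        have e3 : B * (((k : ℝ) + 1) ^ 2 * rhs n q (δ k) (N k) ^ q) =
            (B ^ (1 / q) * ((k : ℝ) + 1) ^ (2 / q) * rhs n q (δ k) (N k)) ^ q := by
          rw [Real.mul_rpow (by positivity) hr, Real.mul_rpow (by positivity) (by positivity),
            ← Real.rpow_mul hB, ← Real.rpow_mul hk, one_div, inv_mul_cancel₀ hq0.ne',
            div_mul_cancel₀ _ hq0.ne', Real.rpow_one, Real.rpow_ofNat]
          ring
        rw [e3, ← ENNReal.ofReal_rpow_of_nonneg (by positivity) hq0.le] at hx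
        rw [Fintype.card_fin]
        exact (ENNReal.rpow_le_rpow_iff hq0).1 hx
      intro k
      exact ⟨hroot k _ (hω k).1, hroot k _ (hω k).2⟩
  have h2 : ∀ q : ℝ, (n : ℝ) / ((n : ℝ) - 1) < q → ∃ C : ℝ, 0 < C ∧
      ∀ (G : Type) [Group G] [TopologicalSpace G] [IsTopologicalGroup G] [CompactSpace G]
      [MeasurableSpace G] [BorelSpace G] (μ : Measure G) [μ.IsHaarMeasure] [IsProbabilityMeasure μ]
      (ρ : G → Iso n), Action ρ → Transitive ρ → KakeyaOnAverage μ ρ q C := by
    intro q hq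
    have hq' : 1 + 1 / ((n : ℝ) - 1) < q := by
      have : 1 + 1 / ((n : ℝ) - 1) = (n : ℝ) / ((n : ℝ) - 1) := by
        have h0 : (n : ℝ) - 1 ≠ 0 := by linarith
        field_simp
        ring
      rw [this]
      exact hq
    obtain ⟨C, hC, H⟩ := h1 ((n : ℝ) - 1) q (by linarith) le_rfl hq'
    refine ⟨C * (1 + 5 * 2 ^ n), by positivity, ?_⟩
    intro G _ _ _ _ _ _ μ _ _ ρ hact hρ
    obtain ⟨hρ, htr⟩ := hρ
    have hm : ∀ v, Measurable (fun k => ρ k v) := fun v => (hρ v).measurable
    have hsp : Spread μ ρ (5 * 2 ^ n) ((n : ℝ) - 1) :=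
      TH705.RR.spread_group (by omega) μ (MonoidHom.mk' ρ (fun k l => by
        ext v : 1
        exact hact k l v)) hm htr
    exact H (5 * 2 ^ n) (by positivity) G μ ρ hm hsp
  refine ⟨h1, h2, ?_⟩
  intro q hq
  obtain ⟨C, hC, H⟩ := h2 q hq
  refine ⟨(C / (1 / 2)) ^ (1 / q), by positivity, ?_⟩
  intro ι _ a e δ hsep
  let _ : MeasurableSpace (TH705.RR.On n) := borel _
  have _ : BorelSpace (TH705.RR.On n) := ⟨rfl⟩
  let K : TopologicalSpace.PositiveCompacts (TH705.RR.On n) := ⊤
  have hK : Measure.haarMeasure K Set.univ = 1 := by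
    exact Measure.haarMeasure_self (K₀ := K)
  have _ : IsProbabilityMeasure (Measure.haarMeasure K) := ⟨hK⟩
  have h3 := ((H (TH705.RR.On n) (Measure.haarMeasure K) (TH705.RR.act n)
    (fun k l v => by rw [map_mul]; rfl)
    ⟨TH705.RR.act_cont, TH705.RR.act_trans⟩).2.1 ι a e δ (1 / 2) hsep (by norm_num)).1
  by_contra hcon
  push Not at hcon
  have h4 : {ω : TH705.RR.On n | ¬ KakeyaBound q ((C / (1 / 2)) ^ (1 / q)) δ
      (move (TH705.RR.act n ω) a) e} = Set.univ := by
    ext ω
    simp only [Set.mem_ofPred_eq, Set.mem_univ, iff_true]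
    exact hcon _
  rw [h4, hK] at h3
  have h5 : ENNReal.ofReal (1 / 2) < 1 := by
    rw [← ENNReal.ofReal_one]
    exact (ENNReal.ofReal_lt_ofReal_iff one_pos).2 (by norm_num)
  exact absurd h3 (not_le.2 h5)

end Pool.Agent.Results.MP_850839_an.RandomRotations
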