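import Pool.Agent.TH294.KT.Fin

/-!
# MP_850839: the tube inequality for all families of tubes after a small random perturbation

Let `n ≥ 3` and let `T i` be any finite family of `δ`-tubes in `ℝ^n` with `δ`-separated directions
`e i` and arbitrary centres `a i`; `m` is the number of the tubes.  No structure of the family is
assumed.  The tubes are moved by random vectors `ξ i`, and `E‖N‖_q^q` is the mean of the `q`-th power
of the `L^q` norm of `N = ∑ 1_{T i + ξ i}`.  The conjecture is `‖N‖_q^q ≤ C δ^(n-1) m^(q-1/(n-1))`.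

1. (small independent translations) Let `|ξ i| ≤ r`, where the `ξ i` are pairwise independent and
   `P(|ξ i - x| ≤ δ) ≤ A (δ/r)^κ`, `2 ≤ κ ≤ n` (or, without independence, this for `ξ i - ξ j`).
   Then, for `n/(n-1) ≤ q ≤ 2`,
   `E‖N‖_q^q ≤ C A δ^(n-1) m^(q-1/(n-1)) (1 + (δ/r)^((κ-2)(q-1)) m^((2-q)/(n-1)))`:
   the loss disappears as soon as `r ≥ δ m^((2-q)/((n-1)(κ-2)(q-1)))`, which, for
   `q > κ/(κ-1)`, is smaller than a positive power of `δ` times a constant for all families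
   (the full range of the conjecture if `κ = n`).
2. (small random Lipschitz perturbations) `ξ i` is an `r`-Lipschitz function of the direction, with
   `P(|ξ i - ξ j - x| ≤ δ) ≤ A (δ/(r|e i - e j|))^κ`; for instance `ξ i = M (e i)` for a random
   matrix `M`. Then the conjectured inequality holds on average for
   `q > n/(n-1)`, `κ/(κ-1) ≤ q ≤ 2`, with the constant `C A r^(-(κ-2)(q-1))`.
3. If `κ = n` in 2, then `E‖N‖_q^q ≤ C δ^(n-1) m (1 + A r^(2-n) (1 + log m))^(q-1)`.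
4. The translations can be chosen in any set `Z` in the ball of radius `r` which carries a
   probability measure with `μ(B(x,δ)) ≤ A (δ/r)^κ`.
5. In particular, every family of `δ`-tubes satisfies the conjectured inequality in the whole range
   `n/(n-1) ≤ q ≤ 2` after a translation of each tube by at most
   `r = δ m^((2-q)/((n-1)(n-2)(q-1)))`.
-/

open MeasureTheory Metric Set ProbabilityTheory
open scoped ENNReal

namespace Pool.Agent.Results.MP_850839_an.RandomTranslations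

open Pool.Agent.TH294.KT

/-- **The conjectured inequality for every family of `δ`-tubes with `δ`-separated directions, after a
small perturbation of the positions of the tubes.** -/
theorem result (n : ℕ) (hn : 3 ≤ n) :
    -- 1. independent (or only pairwise spread) translations of size `r`
    (∃ C : ℝ, 0 < C ∧ ∀ (ι : Type) [Fintype ι] (δ : ℝ) (a e : ι → EuclideanSpace ℝ (Fin n)), Sep δ e →
      ∀ (r A κ q : ℝ), 0 < r → 1 ≤ A → 2 ≤ κ → κ ≤ n → (n : ℝ) / (n - 1) ≤ q → q ≤ 2 →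
      ∀ (Ω : Type) [MeasurableSpace Ω] (P : Measure Ω) [IsProbabilityMeasure P]
      (ξ : ι → Ω → EuclideanSpace ℝ (Fin n)), (∀ i, Measurable (ξ i)) → (∀ i ω, ‖ξ i ω‖ ≤ r) →
      ((∀ i j, i ≠ j → Spread P (fun ω => ξ i ω - ξ j ω) δ (A * (δ / r) ^ κ)) ∨
        ((∀ i j, i ≠ j → IndepFun (ξ i) (ξ j) P) ∧ ∀ i, Spread P (ξ i) δ (A * (δ / r) ^ κ))) →
      ∫⁻ ω, energy q δ (fun i => a i + ξ i ω) e ∂P ≤
        ENNReal.ofReal (C * A * δ ^ (n - 1) * (Fintype.card ι : ℝ) ^ (q - 1 / ((n : ℝ) - 1)) *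
          (1 + (δ / r) ^ ((κ - 2) * (q - 1)) * (Fintype.card ι : ℝ) ^ ((2 - q) / ((n : ℝ) - 1))))) ∧
    -- 2. perturbations which are `r`-Lipschitz functions of the direction
    (∀ q : ℝ, (n : ℝ) / (n - 1) < q → q ≤ 2 →
      ∃ C : ℝ, 0 < C ∧ ∀ (ι : Type) [Fintype ι] (δ : ℝ) (a e : ι → EuclideanSpace ℝ (Fin n)), Sep δ e →
      ∀ (r A κ : ℝ), 0 < r → r ≤ 1 → 1 ≤ A → 2 ≤ κ → κ ≤ n → κ / (κ - 1) ≤ q →
      ∀ (Ω : Type) [MeasurableSpace Ω] (P : Measure Ω) [IsProbabilityMeasure P]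
      (ξ : ι → Ω → EuclideanSpace ℝ (Fin n)), (∀ i, Measurable (ξ i)) →
      (∀ i j ω, ‖ξ i ω - ξ j ω‖ ≤ r * ‖e i - e j‖) →
      (∀ i j, i ≠ j → Spread P (fun ω => ξ i ω - ξ j ω) δ (A * (δ / (r * ‖e i - e j‖)) ^ κ)) →
      ∫⁻ ω, energy q δ (fun i => a i + ξ i ω) e ∂P ≤
        ENNReal.ofReal (C * A * r ^ (-((κ - 2) * (q - 1))) * δ ^ (n - 1) *
          (Fintype.card ι : ℝ) ^ (q - 1 / ((n : ℝ) - 1)))) ∧
    -- 3. the same with `κ = n`: the tubes are disjoint on average, up to a logarithm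
    (∃ C : ℝ, 0 < C ∧ ∀ (ι : Type) [Fintype ι] (δ : ℝ) (a e : ι → EuclideanSpace ℝ (Fin n)), Sep δ e →
      ∀ (r A q : ℝ), 0 < r → 1 ≤ A → 1 ≤ q → q ≤ 2 →
      ∀ (Ω : Type) [MeasurableSpace Ω] (P : Measure Ω) [IsProbabilityMeasure P]
      (ξ : ι → Ω → EuclideanSpace ℝ (Fin n)), (∀ i, Measurable (ξ i)) →
      (∀ i j ω, ‖ξ i ω - ξ j ω‖ ≤ r * ‖e i - e j‖) →
      (∀ i j, i ≠ j → Spread P (fun ω => ξ i ω - ξ j ω) δ (A * (δ / (r * ‖e i - e j‖)) ^ (n : ℝ))) →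
      ∫⁻ ω, energy q δ (fun i => a i + ξ i ω) e ∂P ≤
        ENNReal.ofReal (C * δ ^ (n - 1) * (Fintype.card ι : ℝ) *
          (1 + A * r ^ (2 - (n : ℝ)) * (1 + Real.log (Fintype.card ι : ℝ))) ^ (q - 1))) ∧
    -- 4. existence of good translations in fractal sets `Z`
    (∃ C : ℝ, 0 < C ∧ ∀ (ι : Type) [Fintype ι] (δ : ℝ) (a e : ι → EuclideanSpace ℝ (Fin n)), Sep δ e →
      ∀ (r A κ q : ℝ), 0 < r → 1 ≤ A → 2 ≤ κ → κ ≤ n → (n : ℝ) / (n - 1) ≤ q → q ≤ 2 →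
      ∀ (μ : Measure (EuclideanSpace ℝ (Fin n))) [IsProbabilityMeasure μ]
      (Z : Set (EuclideanSpace ℝ (Fin n))), Z ⊆ closedBall 0 r → μ Zᶜ = 0 →
      (∀ x, μ (closedBall x δ) ≤ ENNReal.ofReal (A * (δ / r) ^ κ)) →
      ∃ η : ι → EuclideanSpace ℝ (Fin n), (∀ i, η i ∈ Z) ∧
        energy q δ (fun i => a i + η i) e ≤
        ENNReal.ofReal (C * A * δ ^ (n - 1) * (Fintype.card ι : ℝ) ^ (q - 1 / ((n : ℝ) - 1)) *
          (1 + (δ / r) ^ ((κ - 2) * (q - 1)) * (Fintype.card ι : ℝ) ^ ((2 - q) / ((n : ℝ) - 1))))) ∧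
    -- 5. the inequality of the problem, without loss, after small translations
    (∀ q : ℝ, (n : ℝ) / (n - 1) ≤ q → q ≤ 2 →
      ∃ C : ℝ, 0 < C ∧ ∀ (ι : Type) [Fintype ι] (δ : ℝ) (a e : ι → EuclideanSpace ℝ (Fin n)), Sep δ e →
      ∀ r : ℝ, δ * (Fintype.card ι : ℝ) ^ ((2 - q) / (((n : ℝ) - 1) * ((n : ℝ) - 2) * (q - 1))) ≤ r →
      0 < r → ∃ η : ι → EuclideanSpace ℝ (Fin n), (∀ i, ‖η i‖ ≤ r) ∧
      eLpNorm (fun y => ∑ i, (tube δ (a i + η i) (e i)).indicator (fun _ => (1 : ℝ)) y)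
        (ENNReal.ofReal q) volume ≤
      ENNReal.ofReal (C * δ ^ (((n : ℝ) - 1) / q) *
        (Fintype.card ι : ℝ) ^ (1 - 1 / (q * ((n : ℝ) - 1))))) :=
  ⟨part_one n hn, part_two n hn, part_two_log n hn, part_three n hn, part_four n hn⟩

end Pool.Agent.Results.MP_850839_an.RandomTranslations
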