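import Pool.Agent.TH221.Rough.Tubes
import Pool.Agent.TH221.Rough.Classes

set_option autoImplicit false

/-!
# MP_850839: the tube inequality, in the full range and without loss, for rough families of lines of
bounded overlap

Work in `ℝ^n = ℝ^d × ℝ`, `n = d + 1`, with its Euclidean norm (`Space d`).  A *family of lines* is a
map `g` on a measurable set `B` of directions: the line with direction `(v, 1)`, `v ∈ B`, is
`{(g v + t v, t) : t ∈ ℝ}`.  No continuity, no Lipschitz constant and no boundedness of `g` (nor of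
`B`) is assumed, only

* `LipPieces B g`: up to a null set `B` is a countable union of measurable sets on each of which `g`
  is Lipschitz, with any constants (equivalently: `g` is approximately differentiable almost
  everywhere on `B`), and
* `OverlapLE M T B g`: almost every point of almost every height `t ∈ T` lies on at most `M` of the
  lines.

With constants depending on `n` and `q` only, times the power of `1 + M` indicated, we prove for
every `q > n/(n-1)`

* the maximal inequality for the family in its dual, strong type form, for all weights `f ≥ 0` and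
  all radii `R`;
* its discrete form: the tube inequality of the problem, with arbitrary coefficients, for `δ`-tubes
  with `δ`-separated orientations such that the axis of every tube is `K δ`-close to the lines of
  the family for a proportion `θ` of the directions at distance `< δ/2` of its own.

The first hypothesis cannot be dropped: a family whose graph is purely unrectifiable has overlap `0`
at almost every height, and its lines form a Besicovitch set.

The theorem applies, for instance, to all continuous families of pairwise disjoint lines in `ℝ³`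
(`M = 1`; see `Pool.Agent.TH221.Rough.hasGood_disjoint`).
-/

open MeasureTheory Set Filter Topology ENNReal NNReal Metric

namespace Pool.Agent.Results.MP_850839_an.RoughFamilies

/-- Euclidean space `ℝ^d`. -/
abbrev Vec (d : ℕ) : Type := EuclideanSpace ℝ (Fin d)

/-- Euclidean space `ℝ^{d+1}`, written as `ℝ^d × ℝ` with the Euclidean norm. -/
abbrev Space (d : ℕ) : Type := WithLp 2 (Vec d × ℝ)

variable {d : ℕ}

/-- The closed tube of length `1` and radius `δ` with centre `a` and axis direction `e`. -/
def tube (δ : ℝ) (e a : Space d) : Set (Space d) :=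
  {y | |inner ℝ (y - a) e| ≤ 1 / 2 ∧ ‖(y - a) - (inner ℝ (y - a) e : ℝ) • e‖ ≤ δ}

/-- The unit vector `(v, 1)/√(1+|v|²)`. -/
noncomputable def dir (v : Vec d) : Space d :=
  (√(1 + ‖v‖ ^ 2))⁻¹ • WithLp.toLp 2 (v, (1:ℝ))

/-- Up to a null set, `B` is covered by countably many measurable sets on each of which `g` is
Lipschitz (with any constant). -/
def LipPieces (B : Set (Vec d)) (g : Vec d → Vec d) : Prop :=
  ∃ P : ℕ → Set (Vec d), (∀ k, MeasurableSet (P k)) ∧ volume (B \ ⋃ k, P k) = 0 ∧
    ∀ k, ∃ C : ℝ≥0, LipschitzOnWith C g (P k)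

/-- For almost every height `t ∈ T`, almost every point of height `t` lies on at most `M` of the
lines with direction in `B`. -/
def OverlapLE (M : ℕ) (T : Set ℝ) (B : Set (Vec d)) (g : Vec d → Vec d) : Prop :=
  ∀ᵐ t : ℝ, t ∈ T → ∀ᵐ y : Vec d, {v | v ∈ B ∧ g v + t • v = y}.encard ≤ M

/-- The strong type inequality at the heights in `T`, with constant `C`: the `L^q` norm of the
`f`-weighted number of lines at distance at most `R` from a point is at most
`(C R^(d+1))^(1/q) ‖f‖_s`, `s = q d / (q d - 1)`, for all `R > 0` and all measurable `f ≥ 0`. -/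
def StrongType (q C : ℝ) (T : Set ℝ) (B : Set (Vec d)) (g : Vec d → Vec d) : Prop :=
  ∀ (R : ℝ) (f : Vec d → ℝ≥0∞), 0 < R → Measurable f →
    ∫⁻ t in T, ∫⁻ x : Vec d, (∫⁻ v in {v | v ∈ B ∧ ‖x - (g v + t • v)‖ ≤ R}, f v) ^ q ≤
      ENNReal.ofReal (C * R ^ (d + 1)) * (∫⁻ v in B, f v ^ (q * d / (q * d - 1))) ^ (q - 1 / d)

/-- The tube inequality for the family, at the heights in `T`, with constant `C`.  The tubes have
directions `dir (v i)`, `|v i| ≤ 1`, that are `δ`-separated, their axes meet the height `0` in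
`β i`, their centres have height `s i`, `|s i| ≤ S`, and for a proportion at least `θ` of the
directions `w` at distance `< δ/2` of `v i` one has `w ∈ B` and `|β i - g w| ≤ K δ`. -/
def TubeInequality (q C : ℝ) (T : Set ℝ) (B : Set (Vec d)) (g : Vec d → Vec d) : Prop :=
  ∀ (K S : ℝ≥0) (θ δ : ℝ), 0 < θ → 0 < δ → δ < 1 → ∀ (ι : Type) [Fintype ι]
    (v β : ι → Vec d) (s a : ι → ℝ), (∀ i, ‖v i‖ ≤ 1) → (∀ i, |s i| ≤ S) →
    (∀ i j, i ≠ j → δ ≤ ‖dir (v i) - dir (v j)‖) →
    (∀ i, ENNReal.ofReal θ * volume (ball (v i) (δ / 2)) ≤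
      volume {w | w ∈ B ∧ ‖w - v i‖ < δ / 2 ∧ ‖β i - g w‖ ≤ K * δ}) →
    eLpNorm (fun y : Space d => ∑ i, (tube δ (dir (v i))
        (WithLp.toLp 2 (β i + s i • v i, s i))).indicator (fun _ => a i) y) (ENNReal.ofReal q)
        (volume.restrict {y : Space d | (WithLp.ofLp y).2 ∈ T})
      ≤ ENNReal.ofReal (C * θ ^ (-(1 / (q * d))) * (1 + K + S) ^ ((d + 1) / q) * δ ^ (d / q) *
          (∑ i, |a i| ^ (q * d / (q * d - 1))) ^ (1 - 1 / (q * d)))

/-- **The tube inequality for rough families of lines of overlap at most `M`, in the full range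
`q > n/(n-1)`, `n = d + 1`, without any loss in `δ`**, in its continuous and its discrete form. -/
theorem result (d : ℕ) (hd : 1 ≤ d) (q : ℝ) (hq : ((d : ℝ) + 1) / d < q) :
    ∃ C : ℝ, 0 < C ∧ ∀ (M : ℕ) (T : Set ℝ) (B : Set (Vec d)) (g : Vec d → Vec d),
      MeasurableSet T → MeasurableSet B → LipPieces B g → OverlapLE M T B g →
      StrongType q (C * (1 + M) ^ (q - 1)) T B g ∧
      TubeInequality q (C * (1 + M) ^ (1 - 1 / q)) T B g := by
  obtain ⟨D, hD, hD'⟩ := Pool.Agent.TH221.Rough.HasGood.tubes hd hq
  have hCst := Pool.Agent.TH221.Rough.Cst_pos hd hq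
  obtain ⟨hd0, hq1, hqd, hr, hs0, hq2⟩ := Pool.Agent.TH221.Rough.exp_facts hd hq
  have hq0 : 0 < q := by linarith
  set E : ℝ := Pool.Agent.TH221.Rough.Cst d q + D with hE
  have hE1 : Pool.Agent.TH221.Rough.Cst d q ≤ E := by linarith
  have hE2 : D ≤ E := by linarith
  refine ⟨E, by linarith, ?_⟩
  intro M T B g hT hB hL hO
  have hg : Pool.Agent.TH221.Rough.HasGood M T B g :=
    Pool.Agent.TH221.Rough.HasGood.of_lipPieces hB hL hO
  have hM0 : (0 : ℝ) ≤ M := Nat.cast_nonneg _
  constructor
  · intro R f hR hf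
    refine (hg.strong hd hq hT hR hf).trans ?_
    gcongr
  · intro K S θ δ hθ hδ hδ1 ι _ v β s a hv hs hsep hE
    refine (hD' M T B g hT hg K S θ δ hθ hδ hδ1 ι v β s a hv hs hsep hE).trans ?_
    apply ENNReal.ofReal_le_ofReal
    have hK0 : (0 : ℝ) ≤ K := K.2
    have hS0 : (0 : ℝ) ≤ S := S.2
    have hSa0 : 0 ≤ ∑ i, |a i| ^ (q * d / (q * d - 1)) :=
      Finset.sum_nonneg fun i _ => by positivity
    calc D * θ ^ (-(1 / (q * d))) * (1 + M) ^ (1 - 1 / q) *
          (1 + K + S) ^ ((d + 1) / q) * δ ^ (d / q) *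
          (∑ i, |a i| ^ (q * d / (q * d - 1))) ^ (1 - 1 / (q * d))
        = D * (1 + M) ^ (1 - 1 / q) * θ ^ (-(1 / (q * d))) *
          (1 + K + S) ^ ((d + 1) / q) * δ ^ (d / q) *
          (∑ i, |a i| ^ (q * d / (q * d - 1))) ^ (1 - 1 / (q * d)) := by ring
      _ ≤ _ := by gcongr

end Pool.Agent.Results.MP_850839_an.RoughFamilies
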